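import Pool.Agent.H44.BN3

open Pool.Agent.H44.BN

namespace Pool.Agent.Results.MP_8219fb_pr.SqrtOrder

theorem result (d : ℕ) (hd : 16 ≤ d) :
    √(d : ℝ) < kc d ∧ (kc d : ℝ) ≤ 6 * √(d : ℝ) :=
  kc_bounds hd

end Pool.Agent.Results.MP_8219fb_pr.SqrtOrder
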